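import Pool.Agent.Work.MP_f68f16_an.Hall.All
import Pool.Agent.Work.MP_f68f16_an.Hall.All2

/-!
# The sharp constant in Hall's lemma, and the extremal problem for prescribed directions

Let `c` be the constant of Q1: the supremum `cst` of `omega D` (the harmonic measure `ω(0; 𝕋, D)` of
the unit circle) over all domains `D` in the disc, `0 ∈ D`, whose boundary contains the unit circle
and whose inner boundary meets every radius.  In what follows `D` runs over ALL domains `D` in the
disc with `0 ∈ D` whose boundary contains the unit circle (`Dom D`); `shadow D` is the set of the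
directions `θ` of the radii which meet the inner boundary of `D`.

1. `ω(0; 𝕋, D) ≤ 1 - (1 - c) |shadow D| / (2 π)`: the harmonic measure of the inner boundary is at
   least `1 - c` times the normalised measure of its radial projection (Hall's lemma with the
   constant `1 - c`).
2. For every compact set `K` of directions the supremum of `ω(0; 𝕋, D)` over the domains whose inner
   boundary meets all radii with direction in `K` is exactly `1 - (1 - c) |K| / (2 π)`; so no
   constant larger than `1 - c` is possible in 1. The same supremum is obtained from the complements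
   of finitely many arcs of circles with centre `0` (for `K = [0, 2 π]` it is `c`).
3. `c` is not attained by a domain whose inner boundary is compact (contained in a disc of radius
   `ρ < 1`).
-/

set_option autoImplicit false

namespace Pool.Agent.Results.MP_f68f16_an.HallConstant

open MPf68f16 MPf68f16.Hall MeasureTheory Set

theorem result :
    (∀ D : Set ℂ, Dom D → omega D ≤
      1 - (1 - cst) * (volume.real (shadow D ∩ Icc 0 (2 * Real.pi)) / (2 * Real.pi))) ∧
    (∀ K : Set ℝ, IsCompact K → K ⊆ Icc 0 (2 * Real.pi) →
      IsLUB {t : ℝ | ∃ D : Set ℂ, Dom D ∧ K ⊆ shadow D ∧ omega D = t}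
        (1 - (1 - cst) * (volume.real K / (2 * Real.pi))) ∧
      IsLUB {t : ℝ | ∃ D : Set ℂ, Dom D ∧ ArcDom D ∧ K ⊆ shadow D ∧ omega D = t}
        (1 - (1 - cst) * (volume.real K / (2 * Real.pi)))) ∧
    IsLUB {t : ℝ | ∃ D : Set ℂ, Admissible D ∧ omega D = t} cst ∧
    (∀ D : Set ℂ, Admissible D → ∀ ρ : ℝ, ρ < 1 → (∀ ζ ∈ frontier D, ‖ζ‖ < 1 → ‖ζ‖ ≤ ρ) →
      omega D < cst) := by
  refine ⟨all_F1, fun K hK hKI => ⟨?_, ?_⟩, isLUB_cst, fun D hD ρ hρ h => all_NA D ρ hD hρ h⟩
  · have h := isLUB_values (fun _ => True) (fun _ _ => trivial) K hK hKI
    simpa only [true_and] using h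
  · exact isLUB_values ArcDom (fun _ h => h) K hK hKI

end Pool.Agent.Results.MP_f68f16_an.HallConstant
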