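import Pool.Agent.Work.MP_f68f16_an.All

/-!
# Harmonic measure of the circle when the obstacle meets every radius: two-sided bounds

For a domain `D` in the unit disc with `0 ∈ D`, whose boundary consists of the unit circle and an
inner boundary which meets every radius (`Admissible D`), let `omega D` be the harmonic measure of
the unit circle at `0` with respect to `D` (the value at `0` of the Perron solution with boundary
values `1` on the circle and `0` on the inner boundary).  Then `omega D ≤ 0.094` for every such
`D`, and there is such a `D` with `omega D > 0.065`.  In particular the constant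
`c = sup {omega D}` satisfies `0.065 < c ≤ 0.094`.

(For continua which meet every radius the supremum is `0.0228...` (Marshall and Sundberg).)
-/

set_option autoImplicit false

namespace Pool.Agent.Results.MP_f68f16_an.TwoSidedBounds

open MPf68f16

theorem result :
    (∀ D : Set ℂ, Admissible D → omega D ≤ 0.094) ∧
    (∃ D : Set ℂ, Admissible D ∧ 0.065 < omega D) ∧
    0.065 < sSup {t : ℝ | ∃ D : Set ℂ, Admissible D ∧ omega D = t} ∧
    sSup {t : ℝ | ∃ D : Set ℂ, Admissible D ∧ omega D = t} ≤ 0.094 := by
  obtain ⟨D, hD, hD'⟩ := lower
  have hb : BddAbove {t : ℝ | ∃ D : Set ℂ, Admissible D ∧ omega D = t} :=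
    ⟨0.094, by rintro t ⟨D, hD, rfl⟩; exact upper D hD⟩
  refine ⟨upper, lower, lt_of_lt_of_le hD' (le_csSup hb ⟨D, hD, rfl⟩), ?_⟩
  exact csSup_le ⟨_, D, hD, rfl⟩ (by rintro t ⟨D, hD, rfl⟩; exact upper D hD)

end Pool.Agent.Results.MP_f68f16_an.TwoSidedBounds
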